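import Mathlib

/-! Package FAIL: the estimate fails in degree `D + 1`. -/

set_option autoImplicit false

namespace Pool.Agent.Helper18.MM

theorem fail_core (D : ℕ) (L u : ℝ) (hL : Liouville L) (hu : u ≠ 0) (C : ℝ) (_hC : 0 < C) :
    ∃ H : ℝ, 2 ≤ H ∧ ∃ P : MvPolynomial (Fin 2) ℤ, P ≠ 0 ∧ P.totalDegree ≤ D + 1 ∧
    (∀ s, |((P.coeff s : ℤ) : ℝ)| ≤ H) ∧
    0 < ‖MvPolynomial.aeval ![(u : ℂ), ((L * u ^ (D + 1) : ℝ) : ℂ)] P‖ ∧
    ‖MvPolynomial.aeval ![(u : ℂ), ((L * u ^ (D + 1) : ℝ) : ℂ)] P‖ < H ^ (-C) := by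
  obtain ⟨k, hk⟩ : ∃ k : ℕ, |L| + 2 < 2 ^ k := pow_unbounded_of_one_lt _ (by norm_num)
  obtain ⟨t, ht⟩ : ∃ t : ℕ, |u| ^ (D + 1) < 2 ^ t := pow_unbounded_of_one_lt _ (by norm_num)
  set c := ⌈C⌉₊ with hc
  obtain ⟨a, b, hb, hne, hlt⟩ := hL (1 + ((k + 1) * c + t))
  have hb2 : (2 : ℝ) ≤ (b : ℝ) := by exact_mod_cast (by omega : (2 : ℤ) ≤ b)
  have hb0 : (0 : ℝ) < (b : ℝ) := by linarith
  have hb1 : (1 : ℝ) ≤ (b : ℝ) := by linarith
  have hpow1 : (1 : ℝ) ≤ (b : ℝ) ^ (1 + ((k + 1) * c + t)) := one_le_pow₀ hb1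
  have ha : |(a : ℝ)| ≤ (b : ℝ) * (|L| + 1) := by
    have h1 : |L - a / b| ≤ 1 := hlt.le.trans ((div_le_one (by positivity)).2 hpow1)
    have h2 : |(a : ℝ) / b| ≤ |L| + 1 := by
      have := abs_sub_abs_le_abs_sub ((a : ℝ) / b) L
      rw [abs_sub_comm] at this
      linarith
    rw [abs_div, abs_of_pos hb0, div_le_iff₀ hb0] at h2
    linarith [mul_comm (b : ℝ) (|L| + 1)]
  have hval : MvPolynomial.aeval ![(u : ℂ), ((L * u ^ (D + 1) : ℝ) : ℂ)]
      (MvPolynomial.C b * MvPolynomial.X 1 - MvPolynomial.C a * MvPolynomial.X 0 ^ (D + 1) :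
        MvPolynomial (Fin 2) ℤ) = (((b * L - a) * u ^ (D + 1) : ℝ) : ℂ) := by
    simp only [map_sub, map_mul, map_pow, MvPolynomial.aeval_X, MvPolynomial.aeval_C,
      Matrix.cons_val_zero, Matrix.cons_val_one]
    simp only [eq_intCast]
    push_cast
    ring
  have hnorm : ‖MvPolynomial.aeval ![(u : ℂ), ((L * u ^ (D + 1) : ℝ) : ℂ)]
      (MvPolynomial.C b * MvPolynomial.X 1 - MvPolynomial.C a * MvPolynomial.X 0 ^ (D + 1) :
        MvPolynomial (Fin 2) ℤ)‖ = |b * L - a| * |u| ^ (D + 1) := by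
    rw [hval, Complex.norm_real, Real.norm_eq_abs, abs_mul, abs_pow]
  have hbl : |b * L - a| = b * |L - a / b| := by
    have h1 : (b : ℝ) * L - a = b * (L - a / b) := by
      field_simp
    rw [h1, abs_mul, abs_of_pos hb0]
  have hpos : 0 < ‖MvPolynomial.aeval ![(u : ℂ), ((L * u ^ (D + 1) : ℝ) : ℂ)]
      (MvPolynomial.C b * MvPolynomial.X 1 - MvPolynomial.C a * MvPolynomial.X 0 ^ (D + 1) :
        MvPolynomial (Fin 2) ℤ)‖ := by
    rw [hnorm, hbl]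
    have h1 : 0 < |L - a / b| := abs_pos.2 (sub_ne_zero.2 hne)
    have h2 : 0 < |u| := abs_pos.2 hu
    positivity
  have hH2 : (2 : ℝ) ≤ b + |(a : ℝ)| := by linarith [abs_nonneg (a : ℝ)]
  have hHle : (b : ℝ) + |(a : ℝ)| ≤ (b : ℝ) ^ (k + 1) := by
    calc (b : ℝ) + |(a : ℝ)| ≤ b * (|L| + 2) := by linarith
      _ ≤ b * 2 ^ k := mul_le_mul_of_nonneg_left hk.le hb0.le
      _ ≤ b * (b : ℝ) ^ k := mul_le_mul_of_nonneg_left
          (pow_le_pow_left₀ (by norm_num) hb2 k) hb0.le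
      _ = (b : ℝ) ^ (k + 1) := by ring
  refine ⟨b + |(a : ℝ)|, hH2, MvPolynomial.C b * MvPolynomial.X 1 -
    MvPolynomial.C a * MvPolynomial.X 0 ^ (D + 1), ?_, ?_, ?_, hpos, ?_⟩
  · intro h0
    rw [h0, map_zero, norm_zero] at hpos
    exact lt_irrefl _ hpos
  · refine (MvPolynomial.totalDegree_sub _ _).trans (max_le ?_ ?_)
    · refine (MvPolynomial.totalDegree_mul _ _).trans ?_
      rw [MvPolynomial.totalDegree_C, MvPolynomial.totalDegree_X]
      omega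
    · refine (MvPolynomial.totalDegree_mul _ _).trans ?_
      rw [MvPolynomial.totalDegree_C, MvPolynomial.totalDegree_X_pow]
      omega
  · intro s
    rw [MvPolynomial.coeff_sub, MvPolynomial.coeff_C_mul, MvPolynomial.coeff_C_mul,
      MvPolynomial.coeff_X, MvPolynomial.coeff_X_pow]
    push_cast
    refine (abs_sub _ _).trans (add_le_add ?_ ?_)
    · split_ifs
      · rw [mul_one, abs_of_pos hb0]
      · rw [mul_zero, abs_zero]
        exact hb0.le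
    · split_ifs
      · rw [mul_one]
      · rw [mul_zero, abs_zero]
        exact abs_nonneg _
  · rw [hnorm, hbl]
    have h1 : (b : ℝ) * |L - a / b| < 1 / (b : ℝ) ^ ((k + 1) * c + t) := by
      calc (b : ℝ) * |L - a / b| < b * (1 / (b : ℝ) ^ (1 + ((k + 1) * c + t))) :=
            mul_lt_mul_of_pos_left hlt hb0
        _ = 1 / (b : ℝ) ^ ((k + 1) * c + t) := by
            rw [pow_add, pow_one]
            field_simp
    have h2 : |u| ^ (D + 1) < (b : ℝ) ^ t := ht.trans_le (pow_le_pow_left₀ (by norm_num) hb2 t)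
    have h3 : 0 < |u| ^ (D + 1) := pow_pos (abs_pos.2 hu) _
    calc (b : ℝ) * |L - a / b| * |u| ^ (D + 1)
        < 1 / (b : ℝ) ^ ((k + 1) * c + t) * |u| ^ (D + 1) := mul_lt_mul_of_pos_right h1 h3
      _ ≤ 1 / (b : ℝ) ^ ((k + 1) * c + t) * (b : ℝ) ^ t :=
          mul_le_mul_of_nonneg_left h2.le (by positivity)
      _ = 1 / ((b : ℝ) ^ (k + 1)) ^ c := by
          rw [pow_add, ← pow_mul]
          field_simp
      _ ≤ 1 / (b + |(a : ℝ)|) ^ c :=
          one_div_le_one_div_of_le (by positivity) (pow_le_pow_left₀ (by linarith) hHle c)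
      _ = (b + |(a : ℝ)|) ^ (-(c : ℝ)) := by
          rw [Real.rpow_neg (by linarith), Real.rpow_natCast, one_div]
      _ ≤ (b + |(a : ℝ)|) ^ (-C) :=
          Real.rpow_le_rpow_of_exponent_le (by linarith) (neg_le_neg (Nat.le_ceil C))

end Pool.Agent.Helper18.MM
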