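import Pool.Agent.Helper80.MM.Stm
import Pool.Agent.Helper18.MM.FAILcore

/-! Package FAIL. -/

set_option autoImplicit false

namespace Pool.Agent.Helper18.MM

theorem fail : Pool.Agent.Helper80.MM.S_FAIL := fun D L u hL hu C hC =>
  fail_core D L u hL hu C hC

end Pool.Agent.Helper18.MM
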