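import Pool.Agent.Helper80.MM.Stm
import Pool.Agent.Helper56.EM.Red
import Pool.Agent.Helper56.EM.B3

/-! Package PB1: the base is a stage, stable under conjugation. -/

set_option autoImplicit false

namespace Pool.Agent.Helper18.MM

open Pool.Agent.Helper35.EM Pool.Agent.Helper56.SA Pool.Agent.Helper56.EM Pool.Agent.Helper56.NL
  Pool.Agent.Helper56.HS Pool.Agent.Helper80.MM Module Submodule Set ComplexConjugate

theorem e_ne {w e : ℕ → ℂ} (h : LB w e) (k : ℕ) : e k ≠ 0 := by
  rcases h.typ k with ⟨h1, -⟩ | ⟨h1, -⟩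
  · rw [h1]; exact one_ne_zero
  · rw [h1]; exact Complex.I_ne_zero

theorem e_mem {w e : ℕ → ℂ} (h : LB w e) (F : Set ℂ) (k : ℕ) : e k ∈ M.closure F := by
  rcases h.typ k with ⟨h1, -⟩ | ⟨h1, -⟩
  · rw [h1]; exact cl_one F
  · rw [h1]; exact cl_I F

theorem indep {D : ℕ} {s t : ℕ → ℝ} (hs : Seq D s t) {w e : ℕ → ℂ} (h : LB w e) :
    LinearIndependent ℚ fun k => e k * (s k : ℂ) := by
  classical
  rw [linearIndependent_iff']
  intro S g hg
  by_contra hne
  push Not at hne
  obtain ⟨i, hiS, hi⟩ := hne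
  have hT : (S.filter fun i => g i ≠ 0).Nonempty := ⟨i, Finset.mem_filter.2 ⟨hiS, hi⟩⟩
  set n := (S.filter fun i => g i ≠ 0).max' hT with hn
  have hnT := Finset.max'_mem _ hT
  rw [← hn, Finset.mem_filter] at hnT
  have h1 : ∑ i ∈ S.filter (fun i => g i ≠ 0), g i • (e i * (s i : ℂ)) = 0 := by
    rw [← hg]
    refine Finset.sum_filter_of_ne fun i _ h => ?_
    intro h0
    exact h (by rw [h0, zero_smul])
  rw [← Finset.add_sum_erase _ _ (Finset.mem_filter.2 hnT), add_eq_zero_iff_eq_neg] at h1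
  have h2 : g n • (e n * (s n : ℂ)) ∈ M.closure ((fun k => (s k : ℂ)) '' Iio n) := by
    rw [h1]
    refine cl_neg (cl_sum _ _ fun i hi => ?_)
    have hin : i < n := by
      rw [Finset.mem_erase] at hi
      exact lt_of_le_of_ne (Finset.le_max' _ _ hi.2) hi.1
    exact cl_smul _ (cl_mul (e_mem h _ i) (cl_self ⟨i, hin, rfl⟩))
  have h3 : e n * (s n : ℂ) ∈ M.closure ((fun k => (s k : ℂ)) '' Iio n) := by
    have := cl_smul (g n)⁻¹ h2
    rwa [smul_smul, inv_mul_cancel₀ hnT.2, one_smul] at this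
  exact hs.free n ((cl_mul_iff (e_mem h _ n) (e_ne h n)).1 h3)

theorem pb1 : S_PB1 := by
  intro D s t hs w e h
  have hmem : ∀ p ∈ PB s w e, ∃ c : ℕ →₀ ℚ, (c.sum fun i a => a • (e i * (s i : ℂ))) = p.1 ∧
      (c.sum fun i a => a • w i) = p.2 ∧ (c = 0 → p = 0) := by
    intro p hp
    unfold PB at hp
    rw [Finsupp.mem_span_range_iff_exists_finsupp] at hp
    obtain ⟨c, rfl⟩ := hp
    refine ⟨c, ?_, ?_, ?_⟩
    · simp only [Finsupp.sum, Prod.fst_sum, Prod.smul_fst]
    · simp only [Finsupp.sum, Prod.snd_sum, Prod.smul_snd]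
    · rintro rfl
      exact Finsupp.sum_zero_index
  refine ⟨⟨?_, ?_, ?_, ?_⟩, ?_⟩
  · intro p hp
    obtain ⟨c, h1, -, -⟩ := hmem p hp
    rw [← h1]
    exact cl_sum _ _ fun i _ => cl_smul _ (cl_mul (e_mem h _ i) (cl_self ⟨i, rfl⟩))
  · intro p hp
    obtain ⟨c, -, h2, -⟩ := hmem p hp
    refine cl_empty_le ((h.spn p.2).1 ?_)
    rw [← h2]
    exact Submodule.sum_mem _ fun i _ => Submodule.smul_mem _ _ (subset_span ⟨i, rfl⟩)
  · intro p hp h0
    obtain ⟨c, h1, -, h3⟩ := hmem p hp
    rw [h0] at h1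
    exact h3 (linearIndependent_iff.1 (indep hs h) c (by rw [Finsupp.linearCombination_apply]; exact h1))
  · intro p hp h0
    obtain ⟨c, -, h2, h3⟩ := hmem p hp
    rw [h0] at h2
    exact h3 (linearIndependent_iff.1 h.ind c (by rw [Finsupp.linearCombination_apply]; exact h2))
  · intro p hp
    unfold PB at hp ⊢
    induction hp using Submodule.span_induction with
    | mem p hp =>
      obtain ⟨k, rfl⟩ := hp
      simp only
      rcases h.typ k with ⟨h1, h2⟩ | ⟨h1, h2⟩
      · have h3 : (conj (e k * (s k : ℂ)), conj (w k)) = (e k * (s k : ℂ), w k) := by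
          rw [h2, h1, map_mul, map_one, Complex.conj_ofReal]
        rw [h3]
        exact subset_span ⟨k, rfl⟩
      · have h3 : (conj (e k * (s k : ℂ)), conj (w k)) = -(e k * (s k : ℂ), w k) := by
          rw [h2, h1, map_mul, Complex.conj_I, Complex.conj_ofReal, Prod.neg_mk, neg_mul]
        rw [h3]
        exact Submodule.neg_mem _ (subset_span ⟨k, rfl⟩)
    | zero =>
      simp only [Prod.fst_zero, Prod.snd_zero, map_zero]
      exact Submodule.zero_mem _
    | add p q _ _ hp hq =>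
      have := Submodule.add_mem _ hp hq
      simpa only [Prod.mk_add_mk, Prod.fst_add, Prod.snd_add, map_add] using this
    | smul a p _ hp =>
      have := Submodule.smul_mem _ a hp
      have h4 : (conj (a • p).1, conj (a • p).2) = a • (conj p.1, conj p.2) := by
        rw [Prod.smul_fst, Prod.smul_snd, Prod.smul_mk]
        simp only [Rat.smul_def, map_mul, map_ratCast]
      rw [h4]
      exact this

end Pool.Agent.Helper18.MM
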